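import Mathlib

/-!
# MP_e77370_co: total size of non-empty cross-`q`-intersecting families, the answer is no

For every `q ≥ 2` the inequality `|F_1| + ... + |F_t| ≤ max {M_1, M_2}` fails: let all sizes be equal
to `k`, let `2 k - q + 1 ≤ n < (q + 1) (k - q + 1)` and let all `F_j` be the family of the `k`-sets
that have at least `q + 1` elements in common with a fixed set `T` of `q + 2` elements. Any two sets of
this family have at least `q` common elements, the family has more than `C(n - q, k - q)` members,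
and `M_1` grows only like `t + O(1)` with the number `t` of the families.
-/

set_option autoImplicit false

namespace Pool.Agent.Results.MP_e77370_co.FranklFamilies

open Finset

/-- `M_1 = C(n, k_1) - ∑_{j < q} C(k_t, j) C(n - k_t, k_1 - j) + ∑_{j ≥ 2} C(n - k_t, k_j - k_t)`; the
sizes `k_1, ..., k_t` are `k 0, ..., k (Fin.last _)`, with `t = s + 2`. -/
def M1 (n q s : ℕ) (k : Fin (s + 2) → ℕ) : ℤ :=
  (n.choose (k 0) : ℤ)
    - ∑ j ∈ range q, ((k (Fin.last _)).choose j * (n - k (Fin.last _)).choose (k 0 - j) : ℕ)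
    + ∑ j : Fin (s + 1), ((n - k (Fin.last _)).choose (k j.succ - k (Fin.last _)) : ℕ)

/-- `M_2 = ∑_j C(n - q, k_j - q)` -/
def M2 (n q s : ℕ) (k : Fin (s + 2) → ℕ) : ℤ :=
  ∑ j : Fin (s + 2), ((n - q).choose (k j - q) : ℕ)

/-- The parameters are admissible: `t = s + 2 ≥ 2`, `q ≥ 1`, `k_1 ≥ ... ≥ k_t ≥ q + 1` and
`n ≥ k_1 + k_2 - q + 1`. -/
def Admissible (n q s : ℕ) (k : Fin (s + 2) → ℕ) : Prop :=
  1 ≤ q ∧ Antitone k ∧ q + 1 ≤ k (Fin.last _) ∧ k 0 + k 1 + 1 ≤ n + q

/-- `F_1, ..., F_t` are non-empty families of subsets of an `n`-set, `F_j` consists of `k_j`-sets, and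
each member of `F_i` shares at least `q` elements with each member of `F_j` for `i ≠ j`. -/
def IsCross (n q s : ℕ) (k : Fin (s + 2) → ℕ) (F : Fin (s + 2) → Finset (Finset (Fin n))) : Prop :=
  (∀ j, (F j).Nonempty) ∧ (∀ j, ∀ A ∈ F j, A.card = k j) ∧
    ∀ i j, i ≠ j → ∀ A ∈ F i, ∀ B ∈ F j, q ≤ (A ∩ B).card

/-- The conjectured inequality for the parameters `n, q, t = s + 2, k_1, ..., k_t`. -/
def Inequality (n q s : ℕ) (k : Fin (s + 2) → ℕ) : Prop :=
  ∀ F : Fin (s + 2) → Finset (Finset (Fin n)), IsCross n q s k F →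
    ((∑ j, (F j).card : ℕ) : ℤ) ≤ max (M1 n q s k) (M2 n q s k)

/-- the `k`-sets with exactly `j` elements in `T` -/
def ex {n : ℕ} (T : Finset (Fin n)) (k j : ℕ) : Finset (Finset (Fin n)) :=
  {A ∈ powersetCard k univ | (A ∩ T).card = j}

/-- the `k`-sets with at least `j` elements in `T` -/
def atl {n : ℕ} (T : Finset (Fin n)) (k j : ℕ) : Finset (Finset (Fin n)) :=
  {A ∈ powersetCard k univ | j ≤ (A ∩ T).card}

lemma card_ex {n : ℕ} (T : Finset (Fin n)) {k j : ℕ} (hj : j ≤ k) :
    T.card.choose j * (n - T.card).choose (k - j) ≤ (ex T k j).card := by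
  have h1 : ((T.powersetCard j) ×ˢ (Tᶜ.powersetCard (k - j))).card =
      T.card.choose j * (n - T.card).choose (k - j) := by
    rw [card_product, card_powersetCard, card_powersetCard, card_compl, Fintype.card_fin]
  rw [← h1]
  refine card_le_card_of_injOn (fun p => p.1 ∪ p.2) ?_ ?_
  · rintro ⟨P, B⟩ hp
    rw [mem_coe, mem_product, mem_powersetCard, mem_powersetCard] at hp
    obtain ⟨⟨hP, hPc⟩, hB, hBc⟩ := hp
    have hdisj : Disjoint P B :=
      disjoint_of_subset_left hP (disjoint_of_subset_right hB disjoint_compl_right)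
    have hBT : B ∩ T = ∅ := by
      rw [← disjoint_iff_inter_eq_empty]
      exact disjoint_of_subset_left hB disjoint_compl_left
    rw [mem_coe, ex, mem_filter, mem_powersetCard]
    refine ⟨⟨subset_univ _, ?_⟩, ?_⟩
    · rw [card_union_of_disjoint hdisj, hPc, hBc]
      omega
    · rw [union_inter_distrib_right, hBT, union_empty, inter_eq_left.2 hP]
      exact hPc
  · rintro ⟨P, B⟩ hp ⟨P', B'⟩ hp' h
    rw [mem_coe, mem_product, mem_powersetCard, mem_powersetCard] at hp hp'
    obtain ⟨⟨hP, -⟩, hB, -⟩ := hp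
    obtain ⟨⟨hP', -⟩, hB', -⟩ := hp'
    have e : ∀ P B : Finset (Fin n), P ⊆ T → B ⊆ Tᶜ → (P ∪ B) ∩ T = P ∧ (P ∪ B) ∩ Tᶜ = B := by
      intro P B hP hB
      have hBT : B ∩ T = ∅ := by
        rw [← disjoint_iff_inter_eq_empty]
        exact disjoint_of_subset_left hB disjoint_compl_left
      have hPT : P ∩ Tᶜ = ∅ := by
        rw [← disjoint_iff_inter_eq_empty]
        exact disjoint_of_subset_left hP disjoint_compl_right
      rw [union_inter_distrib_right, union_inter_distrib_right, hBT, hPT, union_empty, empty_union,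
        inter_eq_left.2 hP, inter_eq_left.2 hB]
      exact ⟨rfl, rfl⟩
    have h1 := e P B hP hB
    have h2 := e P' B' hP' hB'
    simp only at h
    rw [h] at h1
    exact Prod.ext (h1.1.symm.trans h2.1) (h1.2.symm.trans h2.2)

lemma card_atl {n : ℕ} (T : Finset (Fin n)) {k j : ℕ} (hj : j + 1 ≤ k) :
    T.card.choose j * (n - T.card).choose (k - j) +
      T.card.choose (j + 1) * (n - T.card).choose (k - (j + 1)) ≤ (atl T k j).card := by
  have h1 := card_ex T (k := k) (j := j) (by omega)
  have h2 := card_ex T (k := k) (j := j + 1) hj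
  have h3 : Disjoint (ex T k j) (ex T k (j + 1)) := by
    rw [disjoint_left]
    intro A hA hB
    rw [ex, mem_filter] at hA hB
    omega
  have h4 : ex T k j ∪ ex T k (j + 1) ⊆ atl T k j := by
    intro A hA
    rw [mem_union, ex, mem_filter, ex, mem_filter] at hA
    rw [atl, mem_filter]
    rcases hA with hA | hA
    · exact ⟨hA.1, hA.2.ge⟩
    · exact ⟨hA.1, by omega⟩
  have h5 := card_le_card h4
  rw [card_union_of_disjoint h3] at h5
  omega

lemma atl_inter {n : ℕ} (T : Finset (Fin n)) {k q : ℕ} (hT : T.card = q + 2)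
    (A : Finset (Fin n)) (hA : A ∈ atl T k (q + 1)) (B : Finset (Fin n))
    (hB : B ∈ atl T k (q + 1)) : q ≤ (A ∩ B).card := by
  rw [atl, mem_filter] at hA hB
  have h1 := card_union_add_card_inter (A ∩ T) (B ∩ T)
  have h2 : (A ∩ T) ∪ (B ∩ T) ⊆ T := union_subset inter_subset_right inter_subset_right
  have h3 := card_le_card h2
  have h4 : (A ∩ T) ∩ (B ∩ T) ⊆ A ∩ B :=
    inter_subset_inter inter_subset_left inter_subset_left
  have h5 := card_le_card h4
  have h6 := hA.2
  have h7 := hB.2
  omega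

lemma num {q m l : ℕ} (h1 : l + 1 ≤ m) (h2 : m < q * (l + 2) + l + 1) :
    (m + 2).choose (l + 2) < (q + 2) * m.choose (l + 1) + m.choose l := by
  have e1 : (m + 2).choose (l + 2) = m.choose l + 2 * m.choose (l + 1) + m.choose (l + 2) := by
    rw [Nat.choose_succ_succ' (m + 1) (l + 1), Nat.choose_succ_succ' m l,
      Nat.choose_succ_succ' m (l + 1)]
    ring
  have e2 : m.choose (l + 2) * (l + 2) = m.choose (l + 1) * (m - (l + 1)) :=
    Nat.choose_succ_right_eq m (l + 1)
  have e3 : 0 < m.choose (l + 1) := Nat.choose_pos h1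
  have e4 : m.choose (l + 2) < q * m.choose (l + 1) := by
    have h3 : m - (l + 1) < q * (l + 2) := by omega
    have h4 : m.choose (l + 2) * (l + 2) < (q * m.choose (l + 1)) * (l + 2) := by
      rw [e2]
      calc m.choose (l + 1) * (m - (l + 1)) < m.choose (l + 1) * (q * (l + 2)) :=
            Nat.mul_lt_mul_of_pos_left h3 e3
        _ = _ := by ring
    exact Nat.lt_of_mul_lt_mul_right h4
  rw [e1]
  nlinarith

/-- **Q1 has a negative answer for every `q ≥ 2`.** Let `q ≥ 2`, `k ≥ q + 2` and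
`2 k - q + 1 ≤ n < (q + 1) (k - q + 1)`. For every number `t = s + 2 ≥ C(n, k) + 2` of families, with
`k_1 = ... = k_t = k`, the parameters are admissible and the inequality fails. In particular, for every
`q ≥ 2` it fails for some admissible parameters with `n ≥ k_1 + k_2`. -/
theorem result :
    (∀ q k n : ℕ, 2 ≤ q → q + 2 ≤ k → 2 * k + 1 ≤ n + q → n < (q + 1) * (k - q + 1) →
      ∀ s : ℕ, n.choose k ≤ s →
        Admissible n q s (fun _ => k) ∧ ¬ Inequality n q s (fun _ => k)) ∧
    (∀ q : ℕ, 2 ≤ q → ∃ (n s : ℕ) (k : Fin (s + 2) → ℕ),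
      Admissible n q s k ∧ k 0 + k 1 ≤ n ∧ ¬ Inequality n q s k) := by
  have main : ∀ q k n : ℕ, 2 ≤ q → q + 2 ≤ k → 2 * k + 1 ≤ n + q → n < (q + 1) * (k - q + 1) →
      ∀ s : ℕ, n.choose k ≤ s →
        Admissible n q s (fun _ => k) ∧ ¬ Inequality n q s (fun _ => k) := by
    intro q k n hq hk hn1 hn2 s hs
    obtain ⟨l, rfl⟩ := Nat.exists_eq_add_of_le hk
    obtain ⟨m, rfl⟩ := Nat.exists_eq_add_of_le (show q + 2 ≤ n by omega)
    refine ⟨⟨by omega, fun _ _ _ => le_rfl, by simp only; omega, by simp only; omega⟩, ?_⟩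
    intro h
    obtain ⟨T, hT⟩ : ∃ T : Finset (Fin (q + 2 + m)), T.card = q + 2 := by
      obtain ⟨T, -, hT⟩ := exists_subset_card_eq
        (s := (univ : Finset (Fin (q + 2 + m)))) (n := q + 2) (by simp)
      exact ⟨T, hT⟩
    have e0 : q + 2 + l - q + 1 = l + 3 := by omega
    rw [e0] at hn2
    have hcard : (m + 2).choose (l + 2) < (atl T (q + 2 + l) (q + 1)).card := by
      have h1 := card_atl T (k := q + 2 + l) (j := q + 1) (by omega)
      rw [hT] at h1
      have h2 : (q + 2).choose (q + 1) = q + 2 := by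
        rw [Nat.choose_succ_self_right]
      have h3 : (q + 2).choose (q + 1 + 1) = 1 := Nat.choose_self _
      rw [h2, h3, show q + 2 + m - (q + 2) = m by omega, show q + 2 + l - (q + 1) = l + 1 by omega,
        show q + 2 + l - (q + 1 + 1) = l by omega, one_mul] at h1
      refine lt_of_lt_of_le (num ?_ ?_) h1
      · omega
      · nlinarith
    have hpos : 0 < (m + 2).choose (l + 2) := Nat.choose_pos (by omega)
    have h1 := h (fun _ => atl T (q + 2 + l) (q + 1)) ⟨?_, ?_, ?_⟩
    · rw [sum_const, card_univ, Fintype.card_fin, smul_eq_mul] at h1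
      rcases le_max_iff.1 h1 with h2 | h2
      · unfold M1 at h2
        simp only [Nat.sub_self, Nat.choose_zero_right, sum_const, card_univ,
          Fintype.card_fin, nsmul_eq_mul, mul_one] at h2
        have h3 : (0 : ℤ) ≤ ∑ j ∈ range q, (((q + 2 + l).choose j *
            (q + 2 + m - (q + 2 + l)).choose (q + 2 + l - j) : ℕ) : ℤ) :=
          sum_nonneg fun _ _ => Int.natCast_nonneg _
        have h4 : ((q + 2 + m).choose (q + 2 + l) : ℤ) ≤ s := by exact_mod_cast hs
        have h5 : (2 : ℤ) ≤ (atl T (q + 2 + l) (q + 1)).card := by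
          exact_mod_cast (by omega : 2 ≤ (atl T (q + 2 + l) (q + 1)).card)
        push_cast at h2 h3
        nlinarith
      · unfold M2 at h2
        simp only [sum_const, card_univ, Fintype.card_fin, nsmul_eq_mul] at h2
        rw [show q + 2 + m - q = m + 2 by omega, show q + 2 + l - q = l + 2 by omega] at h2
        have h3 : ((m + 2).choose (l + 2) : ℤ) < (atl T (q + 2 + l) (q + 1)).card := by
          exact_mod_cast hcard
        push_cast at h2
        nlinarith
    · intro _
      exact card_pos.1 (lt_trans hpos hcard)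
    · intro _ A hA
      rw [atl, mem_filter, mem_powersetCard] at hA
      exact hA.1.2
    · intro _ _ _ A hA B hB
      exact atl_inter T hT A hA B hB
  refine ⟨main, fun q hq => ?_⟩
  have h1 : (3 * q + 2) < (q + 1) * (q + 2 - q + 1) := by
    rw [show q + 2 - q + 1 = 3 by omega]
    omega
  obtain ⟨h2, h3⟩ := main q (q + 2) (3 * q + 2) hq le_rfl (by omega) h1
    ((3 * q + 2).choose (q + 2)) le_rfl
  exact ⟨3 * q + 2, _, _, h2, by omega, h3⟩

end Pool.Agent.Results.MP_e77370_co.FranklFamilies
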